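import Pool.Agent.H77.KG.Targets

/-!
# Ranks of products of sets (board kgr_modules, row PWR)
-/

set_option autoImplicit false

open Set Pool.Agent.H77.BC Pool.Agent.H77.BD Pool.Agent.H77.KG

namespace Pool.Agent.H60.KGR

theorem pf_PWR : T_PWR := by
  intro M U S _ _ μ
  have hdef : ∀ (k : ℕ) (X : Fin k → Set S), (∀ i, U.D (X i)) →
      U.D {x : Fin k → S | ∀ i, x i ∈ X i} := by
    intro k X hX
    exact D_forall_fin (p := fun (i : Fin k) (x : Fin k → S) => x i ∈ X i)
      fun i => DFn_preim (DFn_apply i) (hX i)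
  induction μ with
  | zero =>
    intro X hX _
    refine ⟨hdef 0 X hX, ?_⟩
    have hne : {x : Fin 0 → S | ∀ i, x i ∈ X i}.Nonempty := ⟨fun i => i.elim0, fun i => i.elim0⟩
    have h := ((Pool.Agent.H77.BCP.a_RKA U).fin (hdef 0 X hX) hne).2 (Set.toFinite _)
    rw [h]
    simp
  | succ μ ih =>
    intro X hX hne
    refine ⟨hdef (μ + 1) X hX, ?_⟩
    choose s hs using hne
    obtain ⟨h1, h2⟩ := ih (fun i => X i.succ) (fun i => hX i.succ) (fun i => ⟨s i.succ, hs i.succ⟩)
    have hf : DFn U (fun x : Fin (μ + 1) → S => (x 0, fun i : Fin μ => x i.succ)) :=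
      DFn_pair (DFn_apply 0) (DFn_vec fun i => DFn_apply i.succ)
    have hinj : InjOn (fun x : Fin (μ + 1) → S => (x 0, fun i : Fin μ => x i.succ))
        {x : Fin (μ + 1) → S | ∀ i, x i ∈ X i} := by
      intro x _ y _ hxy
      funext i
      refine Fin.cases ?_ (fun j => ?_) i
      · exact congrArg Prod.fst hxy
      · exact congrFun (congrArg Prod.snd hxy) j
    have himg : (fun x : Fin (μ + 1) → S => (x 0, fun i : Fin μ => x i.succ)) ''
        {x : Fin (μ + 1) → S | ∀ i, x i ∈ X i} =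
        X 0 ×ˢ {y : Fin μ → S | ∀ i, y i ∈ X i.succ} := by
      ext p
      constructor
      · rintro ⟨x, hx, rfl⟩
        exact ⟨hx 0, fun i => hx i.succ⟩
      · rintro ⟨hp1, hp2⟩
        refine ⟨Fin.cons p.1 p.2, ?_, ?_⟩
        · intro i
          refine Fin.cases ?_ (fun j => ?_) i
          · exact hp1
          · exact hp2 j
        · rfl
    have h3 := (Pool.Agent.H77.BCP.a_RKB U).inj (hdef (μ + 1) X hX) hf ⟨s, hs⟩ hinj
    rw [himg, (Pool.Agent.H77.BCP.a_RKB U).prod (hX 0) h1 ⟨s 0, hs 0⟩ ⟨fun i => s i.succ, fun i => hs i.succ⟩] at h3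
    rw [← h3, h2, Fin.sum_univ_succ]

end Pool.Agent.H60.KGR
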