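import Pool.Agent.H77.KG.Targets

/-!
# Ranks of products of groups (board kgr_modules, row RPR)
-/

set_option autoImplicit false

open Set Pool.Agent.H77.BC Pool.Agent.H77.BD Pool.Agent.H77.KG

namespace Pool.Agent.H60.KGR

theorem pf_RPR (hPRD : T_PRD) : T_RPR := by
  classical
  intro M U G I _ _ L _ _ _ e hc
  refine ⟨?_, ?_⟩
  · intro J
    induction J using Finset.induction_on with
    | empty =>
      rw [Finset.sum_empty]
      have h1 : U.D (Nj e ((∅ : Finset I) : Set I) : Set G) := (hPRD U e hc _).1
      refine ((Pool.Agent.H77.BCP.a_RKA U).fin h1 ⟨1, one_mem _⟩).2 ?_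
      refine (Set.finite_singleton (1 : G)).subset ?_
      intro g hg
      have hg' : ∀ i, i ∉ ((∅ : Finset I) : Set I) → e g i = 1 := hg
      have : e g = 1 := by
        funext i
        exact hg' i (by simp)
      rw [mem_singleton_iff]
      exact (map_eq_one_iff e e.injective).mp this
    | insert i J hi ih =>
      rw [Finset.sum_insert hi, ← ih]
      have hpj : ∀ (g : G) (j : I), e (pj e (J : Set I) g) j = if j ∈ (J : Set I) then e g j else 1 := by
        intro g j
        unfold pj
        rw [MulEquiv.apply_symm_apply]
        split_ifs <;> rfl
      have h := Pool.Agent.H77.BCP.a_GRC U (Nj e ((insert i J : Finset I) : Set I)) (Nj e {i}) (pj e (J : Set I))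
        (hPRD U e hc _).1 (hPRD U e hc _).1 (by
          intro g hg j hj
          refine hg j ?_
          intro hji
          refine hj ?_
          rw [mem_singleton_iff] at hji
          rw [hji]
          simp) (hPRD U e hc _).2 (by
          intro a ha b hb
          have ha' : ∀ j, j ∉ ((insert i J : Finset I) : Set I) → e a j = 1 := ha
          have hb' : ∀ j, j ∉ ((insert i J : Finset I) : Set I) → e b j = 1 := hb
          constructor
          · intro hab j hj
            rw [map_mul, map_inv, Pi.mul_apply, Pi.inv_apply]
            rw [mem_singleton_iff] at hj
            by_cases hjJ : j ∈ (J : Set I)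
            · have h1 := congrFun (congrArg e hab) j
              rw [hpj, hpj, if_pos hjJ, if_pos hjJ] at h1
              rw [h1, inv_mul_cancel]
            · have hjn : j ∉ ((insert i J : Finset I) : Set I) := by
                simp only [Finset.coe_insert, mem_insert_iff, not_or]
                exact ⟨hj, hjJ⟩
              rw [ha' j hjn, hb' j hjn, inv_one, one_mul]
          · intro hab
            have hab' : ∀ j, j ∉ ({i} : Set I) → e (a⁻¹ * b) j = 1 := hab
            refine e.injective (funext fun j => ?_)
            rw [hpj, hpj]
            by_cases hjJ : j ∈ (J : Set I)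
            · rw [if_pos hjJ, if_pos hjJ]
              have hji : j ∉ ({i} : Set I) := by
                rw [mem_singleton_iff]
                rintro rfl
                exact hi hjJ
              have h1 := hab' j hji
              rw [map_mul, map_inv, Pi.mul_apply, Pi.inv_apply, inv_mul_eq_one] at h1
              exact h1
            · rw [if_neg hjJ, if_neg hjJ])
      have himg : pj e (J : Set I) '' (Nj e ((insert i J : Finset I) : Set I) : Set G) =
          (Nj e (J : Set I) : Set G) := by
        ext g
        constructor
        · rintro ⟨g, hg, rfl⟩ j hj
          rw [hpj, if_neg hj]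
        · intro hg
          have hg' : ∀ j, j ∉ (J : Set I) → e g j = 1 := hg
          refine ⟨g, ?_, ?_⟩
          · intro j hj
            refine hg' j fun hjJ => hj ?_
            simp only [Finset.coe_insert, mem_insert_iff]
            exact Or.inr hjJ
          · refine e.injective (funext fun j => ?_)
            rw [hpj]
            by_cases hjJ : j ∈ (J : Set I)
            · rw [if_pos hjJ]
            · rw [if_neg hjJ, hg' j hjJ]
      rw [himg] at h
      rw [h, add_comm]
  · ext g
    refine ⟨fun _ => Subgroup.mem_top g, fun _ i hi => absurd (mem_univ i) hi⟩

end Pool.Agent.H60.KGR
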